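import Pool.Agent.Helper10.RC.Basic

/-!
# MP_b55b7c_an, packet TD2
-/

open scoped ENNReal NNReal InnerProductSpace ComplexOrder
open Filter Topology

attribute [-instance] CStarMatrix.instAlgebra CStarMatrix.instModule CStarMatrix.instSMul
  CStarMatrix.instMulAction CStarMatrix.instDistribMulAction

set_option linter.unusedSectionVars false

noncomputable section
namespace RC
universe u

section TD2
variable {H : Type u} [NormedAddCommGroup H] [InnerProductSpace ℂ H] [CompleteSpace H]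

/-- contractions which are close in the 2-norm -/
structure TD2Cl (S : Set (H →L[ℂ] H)) (ξ : H) (x y : H →L[ℂ] H) (c : ℝ) : Prop where
  m1 : x ∈ S.centralizer
  m2 : y ∈ S.centralizer
  n1 : ‖x‖ ≤ 1
  n2 : ‖y‖ ≤ 1
  d : ‖(x - y) ξ‖ ≤ c

theorem td2_star_mem {S : Set (H →L[ℂ] H)} (hS : ∀ x ∈ S, star x ∈ S) {x : H →L[ℂ] H}
    (hx : x ∈ S.centralizer) : star x ∈ S.centralizer := by
  intro y hy
  have := hx (star y) (hS y hy)
  have h2 := congrArg star this
  rw [star_mul, star_mul, star_star] at h2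
  exact h2.symm

theorem td2_sub_mem {S : Set (H →L[ℂ] H)} {x y : H →L[ℂ] H}
    (hx : x ∈ S.centralizer) (hy : y ∈ S.centralizer) : x - y ∈ S.centralizer := by
  intro z hz
  rw [mul_sub, sub_mul, hx z hz, hy z hz]

theorem td2_one_mem {S : Set (H →L[ℂ] H)} : (1 : H →L[ℂ] H) ∈ S.centralizer := by
  intro z _
  rw [mul_one, one_mul]

theorem TD2Cl.star' (h10 : TwoNormP.{u}) {S : Set (H →L[ℂ] H)} {ξ : H} (hF : FV S ξ)
    {x y : H →L[ℂ] H} {c : ℝ} (h : TD2Cl S ξ x y c) : TD2Cl S ξ (star x) (star y) c := by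
  refine ⟨td2_star_mem hF.star h.m1, td2_star_mem hF.star h.m2, ?_, ?_, ?_⟩
  · rw [norm_star]; exact h.n1
  · rw [norm_star]; exact h.n2
  · rw [← star_sub, (h10 H S ξ hF).1 _ (td2_sub_mem h.m1 h.m2)]
    exact h.d

theorem TD2Cl.mul' (h10 : TwoNormP.{u}) {S : Set (H →L[ℂ] H)} {ξ : H} (hF : FV S ξ)
    {x y x' y' : H →L[ℂ] H} {c c' : ℝ} (h : TD2Cl S ξ x y c) (h' : TD2Cl S ξ x' y' c') :
    TD2Cl S ξ (x * x') (y * y') (c + c') := by
  have hone : ‖(1 : H →L[ℂ] H)‖ ≤ 1 := ContinuousLinearMap.norm_id_le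
  refine ⟨Set.mul_mem_centralizer h.m1 h'.m1, Set.mul_mem_centralizer h.m2 h'.m2, ?_, ?_, ?_⟩
  · calc ‖x * x'‖ ≤ ‖x‖ * ‖x'‖ := norm_mul_le _ _
      _ ≤ 1 * 1 := mul_le_mul h.n1 h'.n1 (norm_nonneg _) zero_le_one
      _ = 1 := one_mul 1
  · calc ‖y * y'‖ ≤ ‖y‖ * ‖y'‖ := norm_mul_le _ _
      _ ≤ 1 * 1 := mul_le_mul h.n2 h'.n2 (norm_nonneg _) zero_le_one
      _ = 1 := one_mul 1
  · have e : x * x' - y * y' = 1 * (x - y) * x' + y * (x' - y') * 1 := by
      rw [one_mul, mul_one, sub_mul, mul_sub]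
      abel
    have a1 := (h10 H S ξ hF).2 1 td2_one_mem (x - y)
      (td2_sub_mem h.m1 h.m2) x' h'.m1
    have a2 := (h10 H S ξ hF).2 y h.m2 (x' - y')
      (td2_sub_mem h'.m1 h'.m2) 1 td2_one_mem
    have b1 : ‖(1 : H →L[ℂ] H)‖ * ‖x'‖ ≤ 1 := by
      calc _ ≤ (1 : ℝ) * 1 := mul_le_mul hone h'.n1 (norm_nonneg _) zero_le_one
        _ = 1 := one_mul 1
    have b2 : ‖y‖ * ‖(1 : H →L[ℂ] H)‖ ≤ 1 := by
      calc _ ≤ (1 : ℝ) * 1 := mul_le_mul h.n2 hone (norm_nonneg _) zero_le_one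
        _ = 1 := one_mul 1
    have c1 : ‖(1 : H →L[ℂ] H)‖ * ‖x'‖ * ‖(x - y) ξ‖ ≤ c := by
      calc _ ≤ 1 * ‖(x - y) ξ‖ := mul_le_mul_of_nonneg_right b1 (norm_nonneg _)
        _ ≤ c := by rw [one_mul]; exact h.d
    have c2 : ‖y‖ * ‖(1 : H →L[ℂ] H)‖ * ‖(x' - y') ξ‖ ≤ c' := by
      calc _ ≤ 1 * ‖(x' - y') ξ‖ := mul_le_mul_of_nonneg_right b2 (norm_nonneg _)
        _ ≤ c' := by rw [one_mul]; exact h'.d
    rw [e]
    calc ‖(1 * (x - y) * x' + y * (x' - y') * 1) ξ‖
        = ‖(1 * (x - y) * x') ξ + (y * (x' - y') * 1) ξ‖ := by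
          rw [_root_.add_apply]
      _ ≤ ‖(1 * (x - y) * x') ξ‖ + ‖(y * (x' - y') * 1) ξ‖ := norm_add_le _ _
      _ ≤ c + c' := add_le_add (a1.trans c1) (a2.trans c2)

theorem td2_norm_proj_le {E : H →L[ℂ] H} (hE : IsStarProjection E) : ‖E‖ ≤ 1 := by
  have h1 : ‖star E * E‖ = ‖E‖ * ‖E‖ := CStarRing.norm_star_mul_self
  rw [hE.isSelfAdjoint.star_eq, hE.isIdempotentElem.eq] at h1
  by_contra h
  push Not at h
  nlinarith

end TD2

theorem tD2P (h1 : GnsP.{u}) (h2 : ImpP.{u}) (h3 : RepFV2P.{u}) (h4 : NoMinNP.{u})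
    (h5 : NoMinPP.{u}) (h6 : ZBP.{u}) (h7 : NoAbP.{u}) (h8 : PiecesP.{u}) (h9 : Kap2P.{u})
    (h10 : TwoNormP.{u}) : TD2P.{u} := by
  intro A _ _ _ B _ _ _ G _ _ α j hact hfix hsimp hinf φ σ₀ C hQ hC hdom hinv k η hη
  obtain ⟨H, _, _, _, π, ρ, ξ, hrep⟩ := h1 A φ
  obtain ⟨U, hU⟩ := h2 A φ G α H π ρ ξ hrep hact hinv
  obtain ⟨hF, hmem⟩ := h3 A B j φ G α H π ρ ξ U hrep hact hfix hU
  set S : Set (H →L[ℂ] H) := Set.range ρ ∪ Set.range U with hS
  have hnm : NoMin S := h5 A φ G α H π ρ ξ U hrep hact hU (h4 A φ H π ρ ξ hrep hsimp hinf)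
  have hz := h6 A B j φ σ₀ C G α H π ρ ξ U hrep hact hfix hU hQ hC hdom
  have hξ : ξ ≠ 0 := by
    intro h
    have := hF.norm
    rw [h, norm_zero] at this
    exact zero_ne_one this
  have h1ne : (1 : H →L[ℂ] H) ≠ 0 := by
    intro h
    have : (1 : H →L[ℂ] H) ξ = (0 : H →L[ℂ] H) ξ := by rw [h]
    exact hξ this
  have hCP1 : CP S (1 : H →L[ℂ] H) :=
    ⟨td2_one_mem, IsStarProjection.one _, fun x _ => by rw [one_mul, mul_one]⟩
  have hCpos : 0 < C := by
    rcases hC.lt_or_eq with h | h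
    · exact h
    · have := hz 1 hCP1 h1ne
      rw [← h] at this
      simp at this
      linarith
  have hnoab : NoAb S := by
    refine h7 H S ξ hF (1 / (2 * C)) (by positivity) (fun z hzc hz0 => ?_) hnm
    have := hz z hzc hz0
    rw [div_le_iff₀ (by positivity)]
    linarith
  obtain ⟨V, E, hV, hE, hEp, hVV, hsum⟩ := h8 H S ξ hF hnoab k
  set K : ℝ := 6 * 2 ^ k + 10 with hK
  have hKpos : 0 < K := by positivity
  set ε : ℝ := √η / (2 * K) with hε
  have hεpos : 0 < ε := by positivity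
  have hKε : (K * ε) ^ 2 < η := by
    have : (K * ε) ^ 2 = η / 4 := by
      have h0 : K * ε = √η / 2 := by rw [hε]; field_simp
      rw [h0, div_pow, Real.sq_sqrt hη.le]
      norm_num
    linarith
  have hE1 : ‖E‖ ≤ 1 := td2_norm_proj_le hEp
  have hEs : star E = E := hEp.isSelfAdjoint.star_eq
  have hEE : E * E = E := hEp.isIdempotentElem.eq
  have hVn : ∀ i, ‖V i‖ ≤ 1 := by
    intro i
    have h0 : star (V i) * V i = E := by rw [hVV]; simp
    have h1 : ‖star (V i) * V i‖ = ‖V i‖ * ‖V i‖ := CStarRing.norm_star_mul_self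
    rw [h0] at h1
    by_contra h
    push Not at h
    nlinarith
  have hVE : ∀ i, V i * E = V i := by
    intro i
    have h0 : star (V i) * V i = E := by rw [hVV]; simp
    have h1 : star (V i - V i * E) * (V i - V i * E) = 0 := by
      rw [star_sub, star_mul, hEs, sub_mul, mul_sub, mul_sub, h0, ← mul_assoc, h0, mul_assoc E,
        h0, ← mul_assoc, mul_assoc E, h0, hEE, hEE]
      abel
    have h2 := CStarRing.star_mul_self_eq_zero_iff (V i - V i * E) |>.mp h1
    exact (sub_eq_zero.mp h2).symm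
  choose x hx1 hx2 using fun i => h9 A B j φ G α H π ρ ξ U hrep hact hfix hU (V i) (hV i) (hVn i)
    ε hεpos
  obtain ⟨e₀, he1, he2⟩ := h9 A B j φ G α H π ρ ξ U hrep hact hfix hU E hE hE1 ε hεpos
  have hcontr : ∀ b : B, ‖b‖ ≤ 1 → ‖π (j b)‖ ≤ 1 := by
    intro b hb
    calc ‖π (j b)‖ ≤ ‖j b‖ := NonUnitalStarAlgHom.norm_apply_le π (j b)
      _ ≤ ‖b‖ := NonUnitalStarAlgHom.norm_apply_le j b
      _ ≤ 1 := hb
  have cX : ∀ i, TD2Cl S ξ (π (j (x i))) (V i) ε := fun i =>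
    ⟨hmem _, hV i, hcontr _ (hx1 i), hVn i, by
      rw [_root_.sub_apply]; exact (hx2 i).le⟩
  have cE0 : TD2Cl S ξ (π (j e₀)) E ε :=
    ⟨hmem _, hE, hcontr _ he1, hE1, by rw [_root_.sub_apply]; exact he2.le⟩
  set e : B := star e₀ * e₀ with he
  have hstar : ∀ b : B, π (j (star b)) = star (π (j b)) := fun b => by
    rw [map_star, map_star]
  have hmul : ∀ a b : B, π (j (a * b)) = π (j a) * π (j b) := fun a b => by
    rw [map_mul, map_mul]
  have cE : TD2Cl S ξ (π (j e)) E (ε + ε) := by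
    have := (cE0.star' h10 hF).mul' h10 hF cE0
    rw [hEs, hEE] at this
    rwa [he, hmul, hstar]
  have cEE : TD2Cl S ξ (π (j (e * e))) E (ε + ε + (ε + ε)) := by
    have := cE.mul' h10 hF cE
    rw [hEE] at this
    rwa [hmul]
  have hphi : ∀ w : B, ‖π (j w) ξ‖ ≤ K * ε → (φ.φ (j (star w * w))).re < η := by
    intro w hw
    have h0 : φ.φ (j (star w * w)) = ((‖π (j w) ξ‖ ^ 2 : ℝ) : ℂ) := by
      rw [← hrep.inner, hmul, hstar]
      rw [show (star (π (j w)) * π (j w)) ξ = star (π (j w)) (π (j w) ξ) from rfl,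
        ContinuousLinearMap.star_eq_adjoint,
        ContinuousLinearMap.adjoint_inner_right, inner_self_eq_norm_sq_to_K]
      push_cast
      rfl
    rw [h0, Complex.ofReal_re]
    refine lt_of_le_of_lt ?_ hKε
    exact pow_le_pow_left₀ (norm_nonneg _) hw 2
  refine ⟨e, x, star_mul_self_nonneg _, ?_, hx1, ?_, ?_⟩
  · -- e ≤ 1
    have h0 : star e₀ * e₀ ≤ algebraMap ℝ B (‖e₀‖ ^ 2) := CStarAlgebra.star_mul_le_algebraMap_norm_sq
    refine h0.trans ?_
    have h00 : algebraMap ℝ B (‖e₀‖ ^ 2) ≤ algebraMap ℝ B 1 := by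
      apply algebraMap_mono
      exact pow_le_one₀ (norm_nonneg _) he1
    rwa [map_one] at h00
  · -- the sum
    apply hphi
    have cT : ∀ i, TD2Cl S ξ (π (j (x i * (e * e) * star (x i)))) (V i * star (V i))
        (ε + (ε + ε + (ε + ε)) + ε) := by
      intro i
      have := ((cX i).mul' h10 hF cEE).mul' h10 hF ((cX i).star' h10 hF)
      rw [hVE] at this
      rwa [hmul, hmul, hstar]
    have e1 : π (j (1 - ∑ i, x i * (e * e) * star (x i))) ξ =
        - ∑ i, (π (j (x i * (e * e) * star (x i))) - V i * star (V i)) ξ := by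
      rw [map_sub, map_sub, map_one, map_one, map_sum, map_sum, ← hsum]
      rw [_root_.sub_apply, _root_.sum_apply,
        _root_.sum_apply, ← Finset.sum_sub_distrib, ← Finset.sum_neg_distrib]
      refine Finset.sum_congr rfl fun i _ => ?_
      rw [_root_.sub_apply]
      abel
    rw [e1, norm_neg]
    calc ‖∑ i, (π (j (x i * (e * e) * star (x i))) - V i * star (V i)) ξ‖
        ≤ ∑ i, ‖(π (j (x i * (e * e) * star (x i))) - V i * star (V i)) ξ‖ := norm_sum_le _ _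
      _ ≤ ∑ _i : Fin (2 ^ k), (ε + (ε + ε + (ε + ε)) + ε) :=
          Finset.sum_le_sum fun i _ => (cT i).d
      _ = (2 ^ k) * (6 * ε) := by
          rw [Finset.sum_const, Finset.card_univ, Fintype.card_fin, nsmul_eq_mul]
          push_cast
          ring
      _ ≤ K * ε := by
          rw [hK]
          nlinarith
  · intro i l
    apply hphi
    have cT : TD2Cl S ξ (π (j (e * star (x i) * x l * e))) (E * star (V i) * V l * E)
        (ε + ε + ε + ε + (ε + ε)) := by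
      have := (((cE.mul' h10 hF ((cX i).star' h10 hF)).mul' h10 hF (cX l)).mul' h10 hF cE)
      rwa [hmul, hmul, hmul, hstar]
    have e2 : E * star (V i) * V l * E = if i = l then E else 0 := by
      rw [mul_assoc E, hVV]
      split_ifs
      · rw [hEE, hEE]
      · rw [mul_zero, zero_mul]
    have e3 : π (j (e * star (x i) * x l * e - if i = l then e * e else 0)) ξ =
        (π (j (e * star (x i) * x l * e)) - E * star (V i) * V l * E) ξ -
          (if i = l then (π (j (e * e)) - E) ξ else 0) := by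
      rw [e2, map_sub, map_sub]
      split_ifs
      · simp only [_root_.sub_apply]
        abel
      · simp
    rw [e3]
    refine (norm_sub_le _ _).trans ?_
    have h0 : ‖(if i = l then (π (j (e * e)) - E) ξ else 0)‖ ≤ ε + ε + (ε + ε) := by
      split_ifs
      · exact cEE.d
      · rw [norm_zero]; positivity
    have h00 := cT.d
    have : (0 : ℝ) < 2 ^ k := by positivity
    rw [hK]
    nlinarith [mul_pos this hεpos]

end RC
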